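import Pool.Agent.H240.GU.Def6

set_option autoImplicit false

open Set Filter Topology MeasureTheory
open scoped ContDiff ComplexConjugate Real

noncomputable section

namespace Pool.Agent.H903.EV

open Pool.Agent.Y262.EG Pool.Agent.H240.EV

/-- `EV-1`: a logarithm of the derivative -/
theorem stLg : StLg := by
  intro Γ S hS hconv hΓ h0
  rcases S.eq_empty_or_nonempty with rfl | ⟨z₀, hz₀⟩
  · exact ⟨0, differentiableOn_empty, fun z hz => absurd hz (Set.notMem_empty z)⟩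
  have hΓ' : DifferentiableOn ℂ (deriv Γ) S := hΓ.deriv hS
  have hΓ'' : DifferentiableOn ℂ (deriv (deriv Γ)) S := hΓ'.deriv hS
  obtain ⟨h, hh⟩ : ∃ h : ℂ → ℂ, h = fun z => deriv (deriv Γ) z / deriv Γ z := ⟨_, rfl⟩
  have hhd : DifferentiableOn ℂ h S := by
    rw [hh]
    exact hΓ''.div hΓ' h0
  obtain ⟨om, hw⟩ : ∃ om : ℂ → ℂ →L[ℂ] ℂ, om = fun z => h z • (1 : ℂ →L[ℂ] ℂ) := ⟨_, rfl⟩
  have hwd : ∀ a ∈ S, HasFDerivAt om
      (((ContinuousLinearMap.smulRight (1 : ℂ →L[ℂ] ℂ) (deriv h a)).smulRight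
        (1 : ℂ →L[ℂ] ℂ)).restrictScalars ℝ) a := by
    intro a ha
    have h1 : HasDerivAt h (deriv h a) a := (hhd.differentiableAt (hS.mem_nhds ha)).hasDerivAt
    rw [hw]
    exact (h1.hasFDerivAt.smul_const (1 : ℂ →L[ℂ] ℂ)).restrictScalars ℝ
  obtain ⟨f, hf⟩ := hconv.exists_forall_hasFDerivAt_of_fderiv_symmetric (𝕜 := ℂ) hS
    (fun a ha => (hwd a ha).differentiableAt.differentiableWithinAt) (by
      intro a ha x y
      rw [(hwd a ha).fderiv]
      simp only [ContinuousLinearMap.coe_restrictScalars', ContinuousLinearMap.smulRight_apply,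
        ContinuousLinearMap.one_apply, ContinuousLinearMap.smul_apply, smul_eq_mul]
      ring)
  have hfd : ∀ a ∈ S, HasDerivAt f (h a) a := by
    intro a ha
    have h1 := (hf a ha).hasDerivAt
    rw [hw] at h1
    simpa using h1
  -- the quotient is constant
  have hconst : ∀ a ∈ S, HasDerivAt (fun z => deriv Γ z * Complex.exp (-f z)) 0 a := by
    intro a ha
    have h1 : HasDerivAt (deriv Γ) (deriv (deriv Γ) a) a :=
      (hΓ'.differentiableAt (hS.mem_nhds ha)).hasDerivAt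
    have h2 := h1.mul ((hfd a ha).neg.cexp)
    refine h2.congr_deriv ?_
    have h3 : deriv Γ a * h a = deriv (deriv Γ) a := by
      rw [hh]
      exact mul_div_cancel₀ _ (h0 a ha)
    rw [← h3]
    ring
  obtain ⟨c, hc⟩ := hS.exists_is_const_of_deriv_eq_zero hconv.isPreconnected
    (fun a ha => (hconst a ha).differentiableAt.differentiableWithinAt)
    (fun a ha => (hconst a ha).deriv)
  have hc0 : c ≠ 0 := by
    rw [← hc z₀ hz₀]
    exact mul_ne_zero (h0 z₀ hz₀) (Complex.exp_ne_zero _)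
  refine ⟨fun z => f z + Complex.log c, ?_, ?_⟩
  · exact fun a ha => ((hfd a ha).differentiableAt.add_const _).differentiableWithinAt
  · intro z hz
    rw [Complex.exp_add, Complex.exp_log hc0, ← hc z hz, mul_comm, mul_assoc, ← Complex.exp_add,
      neg_add_cancel, Complex.exp_zero, mul_one]

theorem fd_eq (φ : ℂ → ℝ) (w v : ℂ) : fderiv ℝ φ w v = px φ w * v.re + py φ w * v.im := by
  unfold px py
  have e : v = v.re • (1 : ℂ) + v.im • Complex.I := by
    apply Complex.ext <;> simp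
  conv_lhs => rw [e]
  rw [map_add, map_smul, map_smul, smul_eq_mul, smul_eq_mul]
  ring

section core

variable {Ω : Set ℂ} {φ : ℂ → ℝ} {Γ ℓ : ℂ → ℂ} {S : Set ℂ} {ψ : ℂ → ℝ}

/-- the derivative of the transferred exponent -/
theorem fd_psi (hO : IsOpen Ω) (hS : IsOpen S) (hφ : ContDiffOn ℝ ∞ φ Ω)
    (hΓ : DifferentiableOn ℂ Γ S) (hm : ∀ z ∈ S, Γ z ∈ Ω) (hℓ : DifferentiableOn ℂ ℓ S)
    (hψ : ∀ z ∈ S, φ (Γ z) + (ℓ z).re = ψ z) {z : ℂ} (hz : z ∈ S) (v : ℂ) :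
    fderiv ℝ ψ z v = fderiv ℝ φ (Γ z) (deriv Γ z * v) + (deriv ℓ z * v).re := by
  have d1 : HasFDerivAt Γ ((ContinuousLinearMap.smulRight (1 : ℂ →L[ℂ] ℂ)
      (deriv Γ z)).restrictScalars ℝ) z :=
    ((hΓ.differentiableAt (hS.mem_nhds hz)).hasDerivAt.hasFDerivAt).restrictScalars ℝ
  have d2 : HasFDerivAt ℓ ((ContinuousLinearMap.smulRight (1 : ℂ →L[ℂ] ℂ)
      (deriv ℓ z)).restrictScalars ℝ) z :=
    ((hℓ.differentiableAt (hS.mem_nhds hz)).hasDerivAt.hasFDerivAt).restrictScalars ℝ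
  have dφ : DifferentiableAt ℝ φ (Γ z) :=
    (hφ.differentiableOn (by simp)).differentiableAt (hO.mem_nhds (hm z hz))
  have d3 := dφ.hasFDerivAt.comp z d1
  have d4 := Complex.reCLM.hasFDerivAt.comp z d2
  have d5 := d3.add d4
  have d6 : HasFDerivAt ψ (_ : ℂ →L[ℝ] ℝ) z := d5.congr_of_eventuallyEq (by
    filter_upwards [hS.mem_nhds hz] with w hw
    rw [← hψ w hw]
    rfl)
  rw [d6.fderiv]
  simp [mul_comm]

/-- the first component -/
theorem XX_fst (hexp : ∀ z ∈ S, Complex.exp (ℓ z) = deriv Γ z)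
    (hψ : ∀ z ∈ S, φ (Γ z) + (ℓ z).re = ψ z) {p : Y} (hp : p.1 ∈ S) :
    deriv Γ p.1 * (XX ψ p).1 = (XX φ (Tx Γ ℓ p)).1 := by
  have h1 := hexp p.1 hp
  have h2 := hψ p.1 hp
  have hre : (deriv Γ p.1).re = Real.exp (ℓ p.1).re * Real.cos (ℓ p.1).im := by
    rw [← h1, Complex.exp_re]
  have him : (deriv Γ p.1).im = Real.exp (ℓ p.1).re * Real.sin (ℓ p.1).im := by
    rw [← h1, Complex.exp_im]
  have h3 : Real.exp (-φ (Γ p.1)) = Real.exp (ℓ p.1).re * Real.exp (-ψ p.1) := by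
    rw [← Real.exp_add, ← h2]
    congr 1
    ring
  unfold XX Tx
  apply Complex.ext
  · rw [Complex.mul_re, hre, him]
    simp only
    rw [h3, Real.cos_add]
    ring
  · rw [Complex.mul_im, hre, him]
    simp only
    rw [h3, Real.sin_add]
    ring

/-- the second component -/
theorem XX_snd (hO : IsOpen Ω) (hS : IsOpen S) (hφ : ContDiffOn ℝ ∞ φ Ω)
    (hΓ : DifferentiableOn ℂ Γ S) (hm : ∀ z ∈ S, Γ z ∈ Ω) (hℓ : DifferentiableOn ℂ ℓ S)
    (hexp : ∀ z ∈ S, Complex.exp (ℓ z) = deriv Γ z)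
    (hψ : ∀ z ∈ S, φ (Γ z) + (ℓ z).re = ψ z) {p : Y} (hp : p.1 ∈ S) :
    (XX ψ p).2 + (deriv ℓ p.1 * (XX ψ p).1).im = (XX φ (Tx Γ ℓ p)).2 := by
  have h1 := hexp p.1 hp
  have h2 := hψ p.1 hp
  have hre : (deriv Γ p.1).re = Real.exp (ℓ p.1).re * Real.cos (ℓ p.1).im := by
    rw [← h1, Complex.exp_re]
  have him : (deriv Γ p.1).im = Real.exp (ℓ p.1).re * Real.sin (ℓ p.1).im := by
    rw [← h1, Complex.exp_im]
  have h3 : Real.exp (-φ (Γ p.1)) = Real.exp (ℓ p.1).re * Real.exp (-ψ p.1) := by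
    rw [← Real.exp_add, ← h2]
    congr 1
    ring
  have hpx : px ψ p.1 = px φ (Γ p.1) * (deriv Γ p.1).re + py φ (Γ p.1) * (deriv Γ p.1).im +
      (deriv ℓ p.1).re := by
    have h4 := fd_psi hO hS hφ hΓ hm hℓ hψ hp 1
    rw [mul_one, mul_one, fd_eq φ] at h4
    exact h4
  have hpy : py ψ p.1 = -(px φ (Γ p.1) * (deriv Γ p.1).im) + py φ (Γ p.1) * (deriv Γ p.1).re -
      (deriv ℓ p.1).im := by
    have h4 := fd_psi hO hS hφ hΓ hm hℓ hψ hp Complex.I
    rw [fd_eq φ, Complex.mul_I_re, Complex.mul_I_im, Complex.mul_I_re] at h4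
    have h5 : py ψ p.1 = fderiv ℝ ψ p.1 Complex.I := rfl
    rw [h5, h4]
    ring
  unfold XX Tx
  simp only [Complex.mul_im]
  rw [h3, Real.sin_add, Real.cos_add, hpx, hpy, hre, him]
  ring

/-- `EV-2`: transfer of the geodesic equation -/
theorem stTrX : StTrX := by
  intro Ω φ Γ ℓ S ψ hO hS hφ hΓ hm hℓ hexp hψ
  have hd0 : ∀ z ∈ S, deriv Γ z ≠ 0 := fun z hz => by
    rw [← hexp z hz]
    exact Complex.exp_ne_zero _
  constructor
  · intro b t hb hbd
    have hz : HasDerivAt (fun s => (b s).1) (XX ψ (b t)).1 t :=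
      (ContinuousLinearMap.fst ℝ ℂ ℝ).hasFDerivAt.comp_hasDerivAt t hbd
    have hθ : HasDerivAt (fun s => (b s).2) (XX ψ (b t)).2 t :=
      (ContinuousLinearMap.snd ℝ ℂ ℝ).hasFDerivAt.comp_hasDerivAt t hbd
    have d1 : HasDerivAt (fun s => Γ (b s).1) ((XX ψ (b t)).1 • deriv Γ (b t).1) t :=
      HasDerivAt.scomp (𝕜 := ℝ) t (h := fun s => (b s).1) (g₁ := Γ)
        ((hΓ.differentiableAt (hS.mem_nhds hb)).hasDerivAt) hz
    have d2 : HasDerivAt (fun s => ℓ (b s).1) ((XX ψ (b t)).1 • deriv ℓ (b t).1) t :=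
      HasDerivAt.scomp (𝕜 := ℝ) t (h := fun s => (b s).1) (g₁ := ℓ)
        ((hℓ.differentiableAt (hS.mem_nhds hb)).hasDerivAt) hz
    have d3 : HasDerivAt (fun s => (ℓ (b s).1).im) ((XX ψ (b t)).1 • deriv ℓ (b t).1).im t :=
      Complex.imCLM.hasFDerivAt.comp_hasDerivAt t d2
    have d4 := d1.prodMk (hθ.add d3)
    refine d4.congr_deriv ?_
    apply Prod.ext
    · show (XX ψ (b t)).1 • deriv Γ (b t).1 = _
      rw [smul_eq_mul, mul_comm, XX_fst hexp hψ hb]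
    · show (XX ψ (b t)).2 + ((XX ψ (b t)).1 • deriv ℓ (b t).1).im = _
      rw [smul_eq_mul, mul_comm (XX ψ (b t)).1, XX_snd hO hS hφ hΓ hm hℓ hexp hψ hb]
  · intro b t hb hbc hT
    have e1 : HasDerivAt (fun s => Γ (b s).1) (XX φ (Tx Γ ℓ (b t))).1 t :=
      (ContinuousLinearMap.fst ℝ ℂ ℝ).hasFDerivAt.comp_hasDerivAt t hT
    have e2 : HasDerivAt (fun s => (b s).2 + (ℓ (b s).1).im) (XX φ (Tx Γ ℓ (b t))).2 t :=
      (ContinuousLinearMap.snd ℝ ℂ ℝ).hasFDerivAt.comp_hasDerivAt t hT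
    have hst : HasStrictDerivAt Γ (deriv Γ (b t).1) (b t).1 :=
      ((hΓ.analyticAt (hS.mem_nhds hb)).hasStrictDerivAt)
    have h0 := hd0 _ hb
    have hinv := hst.to_localInverse h0
    have hleft := (hst.hasStrictFDerivAt_equiv h0).eventually_left_inverse
    have hzc : ContinuousAt (fun s => (b s).1) t := hbc.fst
    have hz : HasDerivAt (fun s => (b s).1) (XX ψ (b t)).1 t := by
      have h1 := HasDerivAt.scomp (𝕜 := ℝ) t (h := fun s => Γ (b s).1)
        (g₁ := hst.localInverse Γ _ _ h0) hinv.hasDerivAt e1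
      have h2 : (XX φ (Tx Γ ℓ (b t))).1 • (deriv Γ (b t).1)⁻¹ = (XX ψ (b t)).1 := by
        rw [← XX_fst hexp hψ hb, smul_eq_mul]
        field_simp
      rw [h2] at h1
      refine h1.congr_of_eventuallyEq ?_
      filter_upwards [hzc.eventually hleft] with s hs
      exact hs.symm
    have d2 : HasDerivAt (fun s => ℓ (b s).1) ((XX ψ (b t)).1 • deriv ℓ (b t).1) t :=
      HasDerivAt.scomp (𝕜 := ℝ) t (h := fun s => (b s).1) (g₁ := ℓ)
        ((hℓ.differentiableAt (hS.mem_nhds hb)).hasDerivAt) hz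
    have d3 : HasDerivAt (fun s => (ℓ (b s).1).im) ((XX ψ (b t)).1 • deriv ℓ (b t).1).im t :=
      Complex.imCLM.hasFDerivAt.comp_hasDerivAt t d2
    have hθ : HasDerivAt (fun s => (b s).2) (XX ψ (b t)).2 t := by
      have h1 := e2.sub d3
      have h2 : (XX φ (Tx Γ ℓ (b t))).2 - ((XX ψ (b t)).1 • deriv ℓ (b t).1).im =
          (XX ψ (b t)).2 := by
        rw [← XX_snd hO hS hφ hΓ hm hℓ hexp hψ hb, smul_eq_mul, mul_comm (XX ψ (b t)).1]
        ring
      rw [h2] at h1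
      refine h1.congr_of_eventuallyEq (Eventually.of_forall fun s => ?_)
      show (b s).2 = (b s).2 + (ℓ (b s).1).im - (ℓ (b s).1).im
      ring
    exact hz.prodMk hθ

end core

end Pool.Agent.H903.EV
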